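import Mathlib
import Pool.Agent.Helper241.BQ

set_option autoImplicit false

namespace Pool.Agent.Results.MP_66cee2_co.NineInN8

/-- `f` preserves unit distances. -/
def PreservesUnit {d n : ℕ} (f : EuclideanSpace ℝ (Fin d) → EuclideanSpace ℝ (Fin n)) : Prop :=
  ∀ x y, dist x y = 1 → dist (f x) (f y) = 1

/-- `f` preserves all distances. -/
def PreservesAll {d n : ℕ} (f : EuclideanSpace ℝ (Fin d) → EuclideanSpace ℝ (Fin n)) : Prop :=
  ∀ x y, dist (f x) (f y) = dist x y

/-- The set `N_d` of the problem file. -/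
def N (d : ℕ) : Set ℕ :=
  {n | d ≤ n ∧ ∀ f : EuclideanSpace ℝ (Fin d) → EuclideanSpace ℝ (Fin n),
    PreservesUnit f → PreservesAll f}

/-- `9 ∈ N_8`: every map `ℝ⁸ → ℝ⁹` that preserves the distance `1` preserves all distances,
so `k_8 ≥ 9 > 8`. -/
theorem result : 9 ∈ N 8 := by
  refine ⟨by norm_num, fun f hf x y => ?_⟩
  exact Pool.Agent.Helper241.BQ.rigid_eight_nine (by simp) f hf x y

end Pool.Agent.Results.MP_66cee2_co.NineInN8
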